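import Pool.Agent.H94.FD.ClsK
import Pool.Agent.H83.FD.TargetsB
import Pool.Agent.H81.GT.TargetsT
import Pool.Agent.H84.BR.ClaimDefs

/-!
MP_ee74d2_an, theorem FD: data layer and final layer (from the class to the wave equation).
Dimension `d = n + 1`.
-/

set_option autoImplicit false

namespace Pool.Agent.H88.FD

open MeasureTheory Set FourierTransform
open scoped ENNReal NNReal RealInnerProductSpace SchwartzMap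
open Pool.Agent.H83.LS
open Pool.Agent.H83.G (Z TF Cls TC)
open Pool.Agent.H81.GT (SymE IsX Gf Ua)
open Pool.Agent.H83.FD (EnX)
open Pool.Agent.H94.FD (KP KX)
open Pool.Agent.H82.FD (T_MAINK)

/-- masses of the balls of radius `1 ≤ ρ ≤ R` (this is `Pool.Agent.H86.FD.Fro n α R A f`) -/
def MorR {n : ℕ} (α R A : ℝ) (f : EE (n + 1) → ℂ) : Prop :=
  ∀ (x : EE (n + 1)) (ρ : ℝ), 1 ≤ ρ → ρ ≤ R →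
    ∫⁻ y in Metric.closedBall x ρ, ‖f y‖ₑ ≤ ENNReal.ofReal (A * ρ ^ α)

/-- masses of the balls of radius `1/λ ≤ ρ ≤ 1` -/
def Mor {n : ℕ} (α lam A : ℝ) (f : EE (n + 1) → ℂ) : Prop :=
  ∀ (x : EE (n + 1)) (ρ : ℝ), lam⁻¹ ≤ ρ → ρ ≤ 1 →
    ∫⁻ y in Metric.closedBall x ρ, ‖f y‖ₑ ≤ ENNReal.ofReal (A * lam ^ (α - ((n : ℝ) + 1)) * ρ ^ α)

/-- weights at scale `1/λ`: `0 < v ≤ 1` and `∫_{B(x,ρ)} v ≤ λ^{-d} (λρ)^α` for `1/λ ≤ ρ ≤ 1` -/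
def Wei {n : ℕ} (α lam : ℝ) (v : EE (n + 1) → ℝ) : Prop :=
  Measurable v ∧ (∀ x, 0 < v x ∧ v x ≤ 1) ∧
  ∀ (x : EE (n + 1)) (ρ : ℝ), lam⁻¹ ≤ ρ → ρ ≤ 1 →
    ∫⁻ y in Metric.closedBall x ρ, ENNReal.ofReal (v y) ≤
      ENNReal.ofReal (lam ^ (α - ((n : ℝ) + 1)) * ρ ^ α)

/-- DAT: the wave belongs to the class (helper86) -/
def T_DAT : Prop := ∀ (n L : ℕ) (κ δ α : ℝ) (a : EE (n + 1) → ℂ) (X χ : ℝ → ℂ), 1 ≤ n →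
  2 * n + 6 ≤ L → κ ≤ 1 / 8 → SymE n κ a → IsX X χ → 0 < δ → 0 < α → α ≤ (n : ℝ) + 1 →
  ∃ C : ℝ, 0 < C ∧ ∀ (R A : ℝ) (f : EE (n + 1) → ℂ), 1 ≤ R → 0 < A → BCd A f → MorR α R A f →
    EnX L α R (C * R ^ δ * A) (Gf X R a f)

/-- restricted type estimate for a sector at frequency one and time `R` -/
def SECX (n : ℕ) (κ α q : ℝ) : Prop := ∀ (η : ℝ) (a : EE (n + 1) → ℂ), 0 < η → SymE n κ a →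
  ∃ C : ℝ≥0, ∀ (R A : ℝ) (f : EE (n + 1) → ℂ), 1 ≤ R → BCd A f → MorR α R A f →
  ∫⁻ t in Icc R (2 * R), ∫⁻ x, ‖Ua a t f x‖ₑ ^ q ≤
    C * ENNReal.ofReal (R ^ ((n : ℝ) * (q / 2 - 1) + η) * A ^ (q - 2)) * ∫⁻ x, ‖f x‖ₑ ^ 2

/-- restricted type estimate at frequency `λ` for the exponents greater than `p₀` -/
def RESX (n : ℕ) (α p₀ : ℝ) : Prop := ∀ q η : ℝ, p₀ < q → 0 < η → ∃ C : ℝ≥0, ∀ (lam A : ℝ)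
  (f : EE (n + 1) → ℂ), 1 ≤ lam → BCd A f → Mor α lam A f →
  ∫⁻ t in Icc (1 : ℝ) 2, ∫⁻ x, ‖MM (mT lam t) f x‖ₑ ^ q ≤
    C * ENNReal.ofReal (lam ^ ((n : ℝ) * (q / 2 - 1) - 1 + η) * A ^ (q - 2)) * ∫⁻ x, ‖f x‖ₑ ^ 2

/-- the same for bounded integrable functions -/
def RESI (n : ℕ) (α p₀ : ℝ) : Prop := ∀ q η : ℝ, p₀ < q → 0 < η → ∃ C : ℝ≥0, ∀ (lam A : ℝ)
  (f : EE (n + 1) → ℂ), 1 ≤ lam → Measurable f → Integrable f → (∀ x, ‖f x‖ ≤ A) →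
  Mor α lam A f → ∫⁻ t in Icc (1 : ℝ) 2, ∫⁻ x, ‖MM (mT lam t) f x‖ₑ ^ q ≤
    C * ENNReal.ofReal (lam ^ ((n : ℝ) * (q / 2 - 1) - 1 + η) * A ^ (q - 2)) * ∫⁻ x, ‖f x‖ₑ ^ 2

/-- restricted type with a weight, also for exponents a little smaller than `p₀` -/
def RESW (n : ℕ) (α p₀ : ℝ) : Prop := ∀ η : ℝ, 0 < η → ∃ ν : ℝ, 0 < ν ∧ ∀ q : ℝ, p₀ - ν ≤ q →
  ∃ C : ℝ≥0, ∀ (lam a : ℝ) (v : EE (n + 1) → ℝ) (h : EE (n + 1) → ℂ), 1 ≤ lam → 0 < a →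
  Wei α lam v → Measurable h → Integrable h → (∀ x, ‖h x‖ ≤ a * v x) →
  ∫⁻ t in Icc (1 : ℝ) 2, ∫⁻ x, ‖MM (mT lam t) h x‖ₑ ^ q ≤
    C * ENNReal.ofReal (lam ^ ((n : ℝ) * (q / 2 - 1) - 1 + η) * a ^ (q - 1)) * ∫⁻ x, ‖h x‖ₑ

/-- strong type at frequency `λ` with a weight -/
def BLAW (n : ℕ) (α p : ℝ) : Prop := ∀ η : ℝ, 0 < η → ∃ C : ℝ≥0, ∀ (lam : ℝ)
  (v : EE (n + 1) → ℝ) (f : 𝓢(EE (n + 1), ℂ)), 1 ≤ lam → Wei α lam v →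
  ∫⁻ t in Icc (1 : ℝ) 2, ∫⁻ x, ‖MM (mT lam t) f x‖ₑ ^ p ≤
    C * ENNReal.ofReal (lam ^ ((n : ℝ) * (p / 2 - 1) - 1 + η)) *
      ∫⁻ x, ‖f x‖ₑ ^ p * ENNReal.ofReal (v x) ^ (1 - p)

/-- the norm of `L^p(v^{1-p})` -/
noncomputable def wN {d : ℕ} (p : ℝ) (v : EE d → ℝ) (f : EE d → ℂ) : ℝ≥0∞ :=
  (∫⁻ x, ‖f x‖ₑ ^ p * ENNReal.ofReal (v x) ^ (1 - p)) ^ (1 / p)

/-- the inequality of Q1 with weights at the exponent `p` in dimension `n + 1` -/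
def Q1W (n : ℕ) (α p : ℝ) : Prop := ∀ σ : ℝ, σ < 1 / p → ∃ C : ℝ≥0, ∀ (lam : ℝ)
  (v : EE (n + 1) → ℝ) (u₀ u₁ : 𝓢(EE (n + 1), ℂ)), 1 ≤ lam → Wei α lam v →
  (∀ ξ, lam < ‖ξ‖ → 𝓕 (u₀ : EE (n + 1) → ℂ) ξ = 0 ∧ 𝓕 (u₁ : EE (n + 1) → ℂ) ξ = 0) →
  Pool.Agent.H84.BR.CD.solNorm p u₀ u₁ ≤
    C * (wN p v (besS ((n : ℝ) / 2 - n / p - σ) u₀) +
      wN p v (besS ((n : ℝ) / 2 - n / p - 1 - σ) u₁))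

/-- LVF: from the level sets to `SECX` (after H81/GT/LEVX, with `T_DAT` and `T_CLS`) -/
def T_LVF : Prop := ∀ (n L : ℕ) (α x q : ℝ), 1 ≤ n → 2 * n + 6 ≤ L → 0 < α →
  α ≤ (n : ℝ) + 1 → 0 < x → T_MAINK n x (KX n L α) → 2 + x < q → SECX n (1 / 8) α q

/-- RSF: from sectors to all directions, and to frequency `λ` (after H81/GT/SC, `res_of_sec`) -/
def T_RSF : Prop := ∀ (n : ℕ) (α p₀ : ℝ), 2 ≤ p₀ → (∀ q, p₀ < q → SECX n (1 / 8) α q) →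
  RESX n α p₀

/-- TRF: truncation (after H81/GT/RB2, `bla_of_res2`) -/
def T_TRF : Prop := ∀ (n : ℕ) (α p₀ : ℝ), 2 ≤ n → 2 ≤ p₀ → RESX n α p₀ → RESI n α p₀

/-- KWF: the smooth part at frequency `λ` of a function which is bounded by the weight -/
def T_KWF : Prop := ∀ (n : ℕ) (α : ℝ), 1 ≤ n → 0 < α → α ≤ (n : ℝ) + 1 → ∃ C : ℝ, 1 ≤ C ∧
  ∀ (lam a : ℝ) (v : EE (n + 1) → ℝ) (h : EE (n + 1) → ℂ), 1 ≤ lam → 0 < a → Wei α lam v →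
  Measurable h → Integrable h → (∀ x, ‖h x‖ ≤ a * v x) →
  ∃ f : EE (n + 1) → ℂ, Measurable f ∧ Integrable f ∧ (∀ x, ‖f x‖ ≤ C * a) ∧
    Mor α lam (C * a) f ∧ ∫⁻ x, ‖f x‖ₑ ≤ ENNReal.ofReal C * ∫⁻ x, ‖h x‖ₑ ∧
    ∀ t x, MM (mT lam t) f x = MM (mT lam t) h x

/-- RWF: restricted type with weights; the exponents below `p₀` by interpolation with `L²` (after
H81/GT/RB2, `resq_below`) -/
def T_RWF : Prop := ∀ (n : ℕ) (α p₀ : ℝ), 2 ≤ n → 0 < α → α ≤ (n : ℝ) + 1 → 2 < p₀ →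
  RESI n α p₀ → RESW n α p₀

/-- BWF: strong type (after H81/GT/RB2, `strong_BC2`, `bla_of_res2`) -/
def T_BWF : Prop := ∀ (n : ℕ) (α p₀ p : ℝ), 2 ≤ n → 2 < p₀ → p₀ ≤ p → RESW n α p₀ → BLAW n α p

/-- HWF: one dyadic block of the solution operators (after H81/GT/QA, `corea`, `higha`; Young's
inequality is used on the solution side) -/
def T_HWF : Prop := ∀ (n : ℕ) (α p r η : ℝ), 2 ≤ n → 1 ≤ p → 0 < η → BLAW n α p →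
  ∃ C : ℝ≥0, ∀ (lam : ℝ) (v : EE (n + 1) → ℝ) (u : 𝓢(EE (n + 1), ℂ)), 1 ≤ lam → Wei α lam v →
    (∫⁻ t in Icc (1 : ℝ) 2, ∫⁻ x, ‖MM (fun ξ => ((Real.cos (2 * Real.pi * t * ‖ξ‖) *
        chi (‖ξ‖ / lam) : ℝ) : ℂ)) u x‖ₑ ^ p ≤
      C * ENNReal.ofReal (lam ^ ((n : ℝ) * (p / 2 - 1) - 1 - p * r + η)) *
        ∫⁻ x, ‖besS r u x‖ₑ ^ p * ENNReal.ofReal (v x) ^ (1 - p)) ∧
    (∫⁻ t in Icc (1 : ℝ) 2, ∫⁻ x, ‖MM (fun ξ => ((Real.sin (2 * Real.pi * t * ‖ξ‖) /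
        (2 * Real.pi * ‖ξ‖) * chi (‖ξ‖ / lam) : ℝ) : ℂ)) u x‖ₑ ^ p ≤
      C * ENNReal.ofReal (lam ^ ((n : ℝ) * (p / 2 - 1) - 1 - p * (r + 1) + η)) *
        ∫⁻ x, ‖besS r u x‖ₑ ^ p * ENNReal.ofReal (v x) ^ (1 - p))

/-- WSC: weights at neighbouring scales -/
def T_WSC : Prop := ∀ (n : ℕ) (α : ℝ), 0 < α → α ≤ (n : ℝ) + 1 → ∃ C : ℝ, 1 ≤ C ∧
  ∀ (lam mu : ℝ) (v : EE (n + 1) → ℝ), 1 ≤ lam → 1 ≤ mu → mu ≤ 4 * lam → Wei α lam v →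
    Wei α mu (fun x => C⁻¹ * v x)

/-- QWF: the theorem at the exponent `p` (after H81/GT/QA, `q1_of_bla`) -/
def T_QWF : Prop := ∀ (n : ℕ) (α p : ℝ), 2 ≤ n → 1 ≤ p → 0 < α → α ≤ (n : ℝ) + 1 →
  BLAW n α p → Q1W n α p

/-- the theorem -/
def T_FD : Prop := ∀ (d : ℕ) (α p σ : ℝ), 3 ≤ d → 0 < α → α ≤ (d : ℝ) - 2 / 3 →
  2 * (d : ℝ) / ((d : ℝ) - 1) ≤ p →
  2 + 8 / (3 * (2 * (d : ℝ) - 1 - α) + max 0 ((d : ℝ) - 1 - α)) ≤ p → σ < 1 / p →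
  ∃ C : ℝ≥0, ∀ (lam : ℝ) (v : EE d → ℝ) (u₀ u₁ : 𝓢(EE d, ℂ)), 1 ≤ lam →
  Measurable v → (∀ x, 0 < v x ∧ v x ≤ 1) →
  (∀ (x : EE d) (ρ : ℝ), lam⁻¹ ≤ ρ → ρ ≤ 1 → ∫⁻ y in Metric.closedBall x ρ, ENNReal.ofReal (v y) ≤
    ENNReal.ofReal (lam ^ (α - (d : ℝ)) * ρ ^ α)) →
  (∀ ξ, lam < ‖ξ‖ → 𝓕 (u₀ : EE d → ℂ) ξ = 0 ∧ 𝓕 (u₁ : EE d → ℂ) ξ = 0) →
  Pool.Agent.H84.BR.CD.solNorm p u₀ u₁ ≤
    C * (wN p v (besS (((d : ℝ) - 1) * (1 / 2 - 1 / p) - σ) u₀) +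
      wN p v (besS (((d : ℝ) - 1) * (1 / 2 - 1 / p) - 1 - σ) u₁))

end Pool.Agent.H88.FD
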