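import Pool.Agent.H88.FD.Asm
import Pool.Agent.H83.FD.ClassAll
import Pool.Agent.H86.FD.Data
import Pool.Agent.H82.FD.QUA
import Pool.Agent.H94.FD.KSU
import Pool.Agent.H83.G.Final
import Pool.Agent.H81.GT.All

/-!
FD (MP_ee74d2_an): the theorem, with all hypotheses discharged.
-/

set_option autoImplicit false

namespace Pool.Agent.H88.FD

open Pool.Agent.H81.GT

theorem fd_DAT : T_DAT := by
  have hACS : T_ACS := Pool.Agent.H34.G.ACS.pf_ACS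
  have hCOV : T_COV := Pool.Agent.H56.G.COV.pf_COV
  have hSUB : T_SUB := Pool.Agent.H70.G.SUB.pf_SUB
  have hPIE : T_PIE := Pool.Agent.H35.G.PIE.pf_PIE hSUB Pool.Agent.H83.LS.Chain.kbv hACS
  have hPKB : T_PKB := Pool.Agent.H33.G.pf_PKB hPIE hACS
  have hPOW : T_POW := Pool.Agent.H59.G.pf_POW
  have hREP : T_REP := Pool.Agent.H33.G.pf_REP hCOV
  have hTAI : T_TAI := Pool.Agent.H49.G.TAI.pf_TAI hPKB hPOW
  exact Pool.Agent.H86.FD.pf_DAT Pool.Agent.H83.G.Chain.m_KER Pool.Agent.H83.G.Chain.m_WT2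
    Pool.Agent.H83.G.Chain.m_SCH hCOV hREP hACS hTAI Pool.Agent.H83.LS.Chain.ple
    (Pool.Agent.H86.FD.pf_TRQ hPOW) Pool.Agent.H82.FD.pf_QUA
    (Pool.Agent.H94.FD.KSU.pf_KSU hPKB hPOW Pool.Agent.H83.LS.Chain.ple hACS hCOV)

theorem fd_LVF : T_LVF := by
  have hACS : T_ACS := Pool.Agent.H34.G.ACS.pf_ACS
  have hCOV : T_COV := Pool.Agent.H56.G.COV.pf_COV
  have hSUB : T_SUB := Pool.Agent.H70.G.SUB.pf_SUB
  have hPIE : T_PIE := Pool.Agent.H35.G.PIE.pf_PIE hSUB Pool.Agent.H83.LS.Chain.kbv hACS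
  have hPKB : T_PKB := Pool.Agent.H33.G.pf_PKB hPIE hACS
  have hPOW : T_POW := Pool.Agent.H59.G.pf_POW
  have hREP : T_REP := Pool.Agent.H33.G.pf_REP hCOV
  have hTAI : T_TAI := Pool.Agent.H49.G.TAI.pf_TAI hPKB hPOW
  have hTRP : T_TRP := Pool.Agent.H34.G.TRP.pf_TRP hPOW Pool.Agent.H83.G.Chain.m_LOA
    Pool.Agent.H83.G.Chain.m_LOB
  have hTX : T_TX := Pool.Agent.H70.G.TX.pf_TX
  have hVOL : T_VOL := Pool.Agent.H1.G.VOL.pf_VOL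
  have hSHP : T_SHP := pf_SHP hCOV hACS hTAI hTRP hVOL Pool.Agent.H83.LS.Chain.ple
    Pool.Agent.H83.G.Chain.m_LOA Pool.Agent.H83.G.Chain.m_LOB
  have hCLS : T_CLS := pf_CLS hREP hACS hSHP Pool.Agent.H83.G.Chain.m_WM
    Pool.Agent.H83.G.Chain.m_AVG Pool.Agent.H83.G.Chain.m_LOA Pool.Agent.H83.G.Chain.m_LOB
    Pool.Agent.H83.G.Chain.m_SCH
  exact Pool.Agent.H94.FD.LVF.pf_LVF fd_DAT hTX hCOV hREP
    Pool.Agent.H83.G.Final.gl2 hCLS Pool.Agent.H83.G.Chain.m_SPK Pool.Agent.H83.G.Chain.m_PUX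
    Pool.Agent.H83.G.Chain.m_SCH

/-- the theorem -/
theorem fd : T_FD :=
  pf_FD (fun _ _ _ _ hm hL hα hx hx4 hmx =>
      Pool.Agent.H83.FD.All.m_MAINK hm hL hα hx hx4 hmx) fd_LVF Pool.Agent.H82.FD.pf_RSF
    Pool.Agent.H82.FD.pf_TRF
    (pf_RWF Pool.Agent.H83.LS.Chain.ple
      (Pool.Agent.H83.FD.pf_KWF Pool.Agent.H83.LS.Chain.radl Pool.Agent.H83.LS.Chain.ple))
    (Pool.Agent.H83.FD.pf_BWF Pool.Agent.H83.LS.Chain.marc Pool.Agent.H83.LS.Chain.ple)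
    (pf_QWF Pool.Agent.H83.LS.Chain.radl Pool.Agent.H83.LS.Chain.lowf Pool.Agent.H83.LS.Chain.yg
      Pool.Agent.H83.LS.Chain.ple)

end Pool.Agent.H88.FD
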