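import Pool.Agent.H88.FD.TargetsC
import Pool.Agent.H81.GT.RB2

/-!
FD (MP_ee74d2_an), module RWF: restricted type with weights.
-/

set_option autoImplicit false

namespace Pool.Agent.H88.FD

open MeasureTheory Set FourierTransform
open scoped ENNReal NNReal SchwartzMap
open Pool.Agent.H83.LS Pool.Agent.H19.LS

/-- energy -/
theorem mT_energy' (hPLE : T_PLE) {n : ℕ} {lam A : ℝ} (hl : 1 ≤ lam) {f : EE (n + 1) → ℂ}
    (hfm : Measurable f) (hfi : Integrable f) (hfA : ∀ x, ‖f x‖ ≤ A) :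
    ∫⁻ t in Icc (1 : ℝ) 2, ∫⁻ x, ‖MM (mT lam t) f x‖ₑ ^ 2 ≤ ∫⁻ x, ‖f x‖ₑ ^ 2 := by
  have hl0 : 0 < lam := by linarith
  calc ∫⁻ t in Icc (1 : ℝ) 2, ∫⁻ x, ‖MM (mT lam t) f x‖ₑ ^ 2
      ≤ ∫⁻ t in Icc (1 : ℝ) 2, ∫⁻ x, ‖f x‖ₑ ^ 2 := by
        refine lintegral_mono fun t => ?_
        exact (hPLE (n + 1) (mT lam t) f (mT_cont lam hl0 t).measurable (mT_le lam hl0 t)
          (mT_int lam hl0 t) hfi ⟨A, hfA⟩ hfm).2
    _ = ∫⁻ x, ‖f x‖ₑ ^ 2 := by
        rw [setLIntegral_const, Real.volume_Icc]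
        norm_num

/-- exponents slightly below the critical one -/
theorem resi_below (hPLE : T_PLE) {n : ℕ} {α p₀ : ℝ} (hp₀ : 2 < p₀) (hRES : RESI n α p₀)
    {η : ℝ} (hη : 0 < η) : ∃ ν : ℝ, 0 < ν ∧ ν ≤ (p₀ - 2) / 2 ∧ ∀ q : ℝ, p₀ - ν ≤ q →
    ∃ C : ℝ≥0, ∀ (lam A : ℝ) (f : EE (n + 1) → ℂ), 1 ≤ lam → Measurable f → Integrable f →
    (∀ x, ‖f x‖ ≤ A) → Mor α lam A f → ∫⁻ t in Icc (1 : ℝ) 2, ∫⁻ x, ‖MM (mT lam t) f x‖ₑ ^ q ≤
    C * ENNReal.ofReal (lam ^ ((n : ℝ) * (q / 2 - 1) - 1 + η) * A ^ (q - 2)) *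
      ∫⁻ x, ‖f x‖ₑ ^ 2 := by
  set ν : ℝ := min ((p₀ - 2) / 2) (η * (p₀ - 2) / 8) with hν
  have hν0 : 0 < ν := by
    have : 0 < p₀ - 2 := by linarith
    exact lt_min (by positivity) (by positivity)
  have hν1 : ν ≤ (p₀ - 2) / 2 := min_le_left _ _
  have hν2 : ν ≤ η * (p₀ - 2) / 8 := min_le_right _ _
  refine ⟨ν, hν0, hν1, fun q hq => ?_⟩
  rcases lt_or_ge p₀ q with h | h
  · exact hRES q η h hη
  set q' : ℝ := p₀ + ν with hq'
  obtain ⟨C, hC⟩ := hRES q' (η / 2) (by linarith) (by positivity)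
  refine ⟨1 + C, fun lam A f hl hfm hfi hfA hfM => ?_⟩
  have hl0 : 0 < lam := by linarith
  have hA0 : 0 ≤ A := (norm_nonneg (f 0)).trans (hfA 0)
  have hq2 : 0 < q - 2 := by linarith
  rcases hA0.eq_or_lt with hA | hA
  · have hf0 : f = 0 := by
      funext x
      have := hfA x
      rw [← hA] at this
      exact norm_le_zero_iff.1 this
    have h0 : ∀ t x, MM (mT lam t) f x = 0 := by
      intro t x
      unfold MM
      have h0 : 𝓕 f = 0 := by
        rw [hf0]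
        funext ξ
        simp [Real.fourier_eq]
      rw [h0]
      simp
    simp only [h0]
    rw [lintegral_congr (g := fun _ => 0)]
    · simp
    · intro t
      rw [lintegral_congr (g := fun _ => 0)]
      · simp
      · intro x
        rw [enorm_zero, ENNReal.zero_rpow_of_pos (by linarith)]
  set b : ℝ := (n : ℝ) / 2 - (1 - η) / (q - 2) with hb
  set L : ℝ := A * lam ^ b with hL
  have hL0 : 0 < L := by positivity
  have hpt : ∀ u : ℝ≥0∞, u ^ q ≤ ENNReal.ofReal (L ^ (q - 2)) * u ^ 2 +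
      ENNReal.ofReal (L ^ (q - q')) * u ^ q' := by
    intro u
    rcases eq_or_ne u ⊤ with rfl | hu
    · refine le_trans le_top (le_of_eq ?_)
      rw [ENNReal.top_pow (by norm_num), ENNReal.mul_top]
      · simp
      · rw [Ne, ENNReal.ofReal_eq_zero, not_le]
        positivity
    · lift u to ℝ≥0 using hu
      rw [← ENNReal.ofReal_coe_nnreal, ENNReal.ofReal_rpow_of_nonneg (NNReal.coe_nonneg u)
        (by linarith), ← ENNReal.ofReal_pow (NNReal.coe_nonneg u),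
        ENNReal.ofReal_rpow_of_nonneg (NNReal.coe_nonneg u) (by linarith),
        ← ENNReal.ofReal_mul (by positivity), ← ENNReal.ofReal_mul (by positivity),
        ← ENNReal.ofReal_add (by positivity) (by positivity)]
      apply ENNReal.ofReal_le_ofReal
      set x : ℝ := (u : ℝ) with hx
      have hx0 : 0 ≤ x := NNReal.coe_nonneg u
      rcases hx0.eq_or_lt with h0 | h0
      · rw [← h0, Real.zero_rpow (by linarith)]
        positivity
      rcases le_or_gt x L with h1 | h1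
      · have h2 : x ^ q = x ^ (q - 2) * x ^ 2 := by
          rw [← Real.rpow_natCast x 2, ← Real.rpow_add h0]
          congr 1
          push_cast
          ring
        have h3 : x ^ (q - 2) ≤ L ^ (q - 2) := Real.rpow_le_rpow hx0 h1 hq2.le
        have h4 : 0 ≤ L ^ (q - q') * x ^ q' := by positivity
        rw [h2]
        nlinarith [sq_nonneg x]
      · have h2 : x ^ q = x ^ (q - q') * x ^ q' := by
          rw [← Real.rpow_add h0]
          congr 1
          ring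
        have h3 : x ^ (q - q') ≤ L ^ (q - q') :=
          Real.rpow_le_rpow_of_nonpos hL0 h1.le (by linarith)
        have h4 : 0 ≤ L ^ (q - 2) * x ^ 2 := by positivity
        have h5 : 0 ≤ x ^ q' := by positivity
        rw [h2]
        nlinarith
  have hm2 : Measurable fun y : ℝ × EE (n + 1) => ‖MM (mT lam y.1) f y.2‖ₑ :=
    (MM_cont lam hl0 f hfi).measurable.enorm
  have h1 : ∫⁻ t in Icc (1 : ℝ) 2, ∫⁻ x, ‖MM (mT lam t) f x‖ₑ ^ q ≤
      ENNReal.ofReal (L ^ (q - 2)) * (∫⁻ t in Icc (1 : ℝ) 2, ∫⁻ x, ‖MM (mT lam t) f x‖ₑ ^ 2) +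
      ENNReal.ofReal (L ^ (q - q')) *
        ∫⁻ t in Icc (1 : ℝ) 2, ∫⁻ x, ‖MM (mT lam t) f x‖ₑ ^ q' := by
    rw [st_eq (fun y => ‖MM (mT lam y.1) f y.2‖ₑ ^ q) (hm2.pow_const q),
      st_eq (fun y => ‖MM (mT lam y.1) f y.2‖ₑ ^ 2) (hm2.pow_const 2),
      st_eq (fun y => ‖MM (mT lam y.1) f y.2‖ₑ ^ q') (hm2.pow_const q'),
      ← lintegral_const_mul' _ _ ENNReal.ofReal_ne_top,
      ← lintegral_const_mul' _ _ ENNReal.ofReal_ne_top,
      ← lintegral_add_left ((hm2.pow_const 2).const_mul _)]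
    exact lintegral_mono fun y => hpt _
  refine h1.trans ?_
  have h2 := mT_energy' hPLE hl hfm hfi hfA
  have h3 := hC lam A f hl hfm hfi hfA hfM
  set J : ℝ≥0∞ := ∫⁻ x, ‖f x‖ₑ ^ 2 with hJ
  set W : ℝ := lam ^ ((n : ℝ) * (q / 2 - 1) - 1 + η) * A ^ (q - 2) with hW
  have e1 : L ^ (q - 2) = W := by
    rw [hL, hW, Real.mul_rpow hA.le (by positivity), ← Real.rpow_mul hl0.le, mul_comm]
    congr 2
    rw [hb]
    field_simp
    ring
  have e2 : L ^ (q - q') * (lam ^ ((n : ℝ) * (q' / 2 - 1) - 1 + η / 2) * A ^ (q' - 2)) ≤ W := by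
    have e3 : L ^ (q - q') * (lam ^ ((n : ℝ) * (q' / 2 - 1) - 1 + η / 2) * A ^ (q' - 2)) =
        lam ^ (b * (q - q') + ((n : ℝ) * (q' / 2 - 1) - 1 + η / 2)) * A ^ (q - 2) := by
      have e4 : lam ^ (b * (q - q') + ((n : ℝ) * (q' / 2 - 1) - 1 + η / 2)) =
          lam ^ (b * (q - q')) * lam ^ ((n : ℝ) * (q' / 2 - 1) - 1 + η / 2) :=
        Real.rpow_add hl0 _ _
      have e5 : A ^ (q - 2) = A ^ (q - q') * A ^ (q' - 2) := by
        rw [← Real.rpow_add hA]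
        congr 1
        ring
      rw [hL, Real.mul_rpow hA.le (by positivity), ← Real.rpow_mul hl0.le, e4, e5]
      ring
    rw [e3, hW]
    refine mul_le_mul_of_nonneg_right (Real.rpow_le_rpow_of_exponent_le hl ?_) (by positivity)
    · have h5 : (1 - η) / (q - 2) * (q' - q) ≤ η / 2 := by
        have h6 : q' - q ≤ 2 * ν := by linarith
        have h7 : (p₀ - 2) / 2 ≤ q - 2 := by linarith
        rcases le_or_gt 1 η with h8 | h8
        · have : (1 - η) / (q - 2) ≤ 0 := div_nonpos_of_nonpos_of_nonneg (by linarith) hq2.le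
          have h9 : 0 ≤ q' - q := by linarith
          nlinarith
        · rw [div_mul_eq_mul_div, div_le_iff₀ hq2]
          have h9 : (1 - η) * (q' - q) ≤ 1 * (2 * ν) := by
            apply mul_le_mul (by linarith) h6 (by linarith) (by norm_num)
          nlinarith
      have h10 : b * (q - q') + ((n : ℝ) * (q' / 2 - 1) - 1 + η / 2) =
          (n : ℝ) * (q / 2 - 1) - 1 + η / 2 + (1 - η) / (q - 2) * (q' - q) := by
        rw [hb]
        ring
      rw [h10]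
      linarith
  calc ENNReal.ofReal (L ^ (q - 2)) * (∫⁻ t in Icc (1 : ℝ) 2, ∫⁻ x, ‖MM (mT lam t) f x‖ₑ ^ 2) +
      ENNReal.ofReal (L ^ (q - q')) *
        ∫⁻ t in Icc (1 : ℝ) 2, ∫⁻ x, ‖MM (mT lam t) f x‖ₑ ^ q'
      ≤ ENNReal.ofReal (L ^ (q - 2)) * J + ENNReal.ofReal (L ^ (q - q')) *
        (C * ENNReal.ofReal (lam ^ ((n : ℝ) * (q' / 2 - 1) - 1 + η / 2) * A ^ (q' - 2)) * J) := by
        gcongr
    _ = ENNReal.ofReal W * J + C * ENNReal.ofReal (L ^ (q - q') *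
        (lam ^ ((n : ℝ) * (q' / 2 - 1) - 1 + η / 2) * A ^ (q' - 2))) * J := by
        rw [e1, ENNReal.ofReal_mul (p := L ^ (q - q')) (by positivity)]
        generalize ENNReal.ofReal W = u1
        generalize ENNReal.ofReal (L ^ (q - q')) = u2
        generalize ENNReal.ofReal (lam ^ ((n : ℝ) * (q' / 2 - 1) - 1 + η / 2) *
          A ^ (q' - 2)) = u3
        ring
    _ ≤ ENNReal.ofReal W * J + C * ENNReal.ofReal W * J := by
        gcongr
    _ = _ := by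
        push_cast
        ring


/-- RWF -/
theorem pf_RWF (hPLE : T_PLE) (hKWF : T_KWF) : T_RWF := by
  intro n α p₀ hn hα hα1 hp₀ hRES η hη
  obtain ⟨ν, hν0, hν1, hν⟩ := resi_below hPLE hp₀ hRES hη
  obtain ⟨C₀, hC₀, h0⟩ := hKWF n α (by omega) hα hα1
  have hC00 : 0 ≤ C₀ := by linarith
  refine ⟨ν, hν0, fun q hq => ?_⟩
  obtain ⟨C, hC⟩ := hν q hq
  have hq2 : 0 < q - 2 := by linarith
  refine ⟨C * (C₀ ^ q).toNNReal, fun lam a v h hl ha hv hm hi hb => ?_⟩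
  have hl0 : 0 < lam := by linarith
  obtain ⟨f, hfm, hfi, hfA, hfM, hf1, hfh⟩ := h0 lam a v h hl ha hv hm hi hb
  have h1 := hC lam (C₀ * a) f hl hfm hfi hfA hfM
  have h2 : ∫⁻ x, ‖f x‖ₑ ^ 2 ≤ ENNReal.ofReal (C₀ * a) * (ENNReal.ofReal C₀ * ∫⁻ x, ‖h x‖ₑ) := by
    calc ∫⁻ x, ‖f x‖ₑ ^ 2 ≤ ∫⁻ x, ENNReal.ofReal (C₀ * a) * ‖f x‖ₑ := by
          refine lintegral_mono fun x => ?_
          rw [sq]
          refine mul_le_mul' ?_ le_rfl
          rw [← ofReal_norm]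
          exact ENNReal.ofReal_le_ofReal (hfA x)
      _ = ENNReal.ofReal (C₀ * a) * ∫⁻ x, ‖f x‖ₑ :=
          lintegral_const_mul' _ _ ENNReal.ofReal_ne_top
      _ ≤ _ := by gcongr
  have h3 : ∫⁻ t in Icc (1 : ℝ) 2, ∫⁻ x, ‖MM (mT lam t) h x‖ₑ ^ q =
      ∫⁻ t in Icc (1 : ℝ) 2, ∫⁻ x, ‖MM (mT lam t) f x‖ₑ ^ q := by
    simp only [hfh]
  rw [h3]
  refine (h1.trans (mul_le_mul' le_rfl h2)).trans (le_of_eq ?_)
  have e1 : (C₀ * a) ^ (q - 2) * (C₀ * a) * C₀ = C₀ ^ q * a ^ (q - 1) := by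
    rw [Real.mul_rpow hC00 ha.le]
    have e2 : C₀ ^ q = C₀ ^ (q - 2) * C₀ * C₀ := by
      rcases hC00.eq_or_lt with h | h
      · linarith
      · rw [mul_assoc, ← sq, ← Real.rpow_natCast C₀ 2, ← Real.rpow_add h]
        congr 1
        push_cast
        ring
    have e3 : a ^ (q - 1) = a ^ (q - 2) * a := by
      rw [← Real.rpow_add_one ha.ne']
      congr 1
      ring
    rw [e2, e3]
    ring
  rw [← ENNReal.ofReal_coe_nnreal, ← ENNReal.ofReal_coe_nnreal]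
  push_cast
  rw [Real.coe_toNNReal _ (by positivity)]
  set I : ℝ≥0∞ := ∫⁻ x, ‖h x‖ₑ
  set P : ℝ := lam ^ ((n : ℝ) * (q / 2 - 1) - 1 + η) with hP
  have hP0 : 0 ≤ P := by positivity
  calc ENNReal.ofReal (C : ℝ) * ENNReal.ofReal (P * (C₀ * a) ^ (q - 2)) *
        (ENNReal.ofReal (C₀ * a) * (ENNReal.ofReal C₀ * I))
      = (ENNReal.ofReal (C : ℝ) * (ENNReal.ofReal (P * (C₀ * a) ^ (q - 2)) *
        ENNReal.ofReal (C₀ * a) * ENNReal.ofReal C₀)) * I := by ring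
    _ = ENNReal.ofReal (C * (P * ((C₀ * a) ^ (q - 2) * (C₀ * a) * C₀))) * I := by
        rw [← ENNReal.ofReal_mul (by positivity), ← ENNReal.ofReal_mul (by positivity),
          ← ENNReal.ofReal_mul (NNReal.coe_nonneg C)]
        congr 2
        ring
    _ = ENNReal.ofReal ((C : ℝ) * C₀ ^ q * (P * a ^ (q - 1))) * I := by
        rw [e1]
        congr 2
        ring
    _ = _ := by
        rw [ENNReal.ofReal_mul (by positivity)]

end Pool.Agent.H88.FD
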