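import Pool.Agent.H88.FD.QWF
import Pool.Agent.H88.FD.RWF
import Pool.Agent.H83.FD.BWF
import Pool.Agent.H83.FD.KWF
import Pool.Agent.H82.FD.RSF
import Pool.Agent.H82.FD.TRF
import Pool.Agent.H94.FD.LVF
import Pool.Agent.H94.FD.MainK

/-!
FD (MP_ee74d2_an): assembly.
-/

set_option autoImplicit false

namespace Pool.Agent.H88.FD

open MeasureTheory Set FourierTransform
open scoped ENNReal NNReal SchwartzMap
open Pool.Agent.H83.LS
open Pool.Agent.H94.FD (KX)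
open Pool.Agent.H82.FD (T_MAINK)

/-- the exponent of the level set estimate -/
theorem exp_eq (n : ℕ) (α : ℝ) : 6 * (n : ℝ) + 3 - 2 * α - 2 * min (α / 2) (α - (n : ℝ) / 2) =
    3 * (2 * (n : ℝ) + 1 - α) + max 0 ((n : ℝ) - α) := by
  rcases le_total α n with h | h
  · rw [min_eq_right (by linarith), max_eq_right (by linarith)]
    ring
  · rw [min_eq_left (by linarith), max_eq_left (by linarith)]
    ring

/-- all exponents greater than the threshold -/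
theorem secx_all (hMK : ∀ (m L : ℕ) (α x : ℝ), 1 ≤ m → 4 * m + 20 ≤ L → α ≤ m + 1 / 3 →
      8 ≤ x * (6 * m + 3 - 2 * α - 2 * min (α / 2) (α - (m : ℝ) / 2)) → x ≤ 4 → 2 < m * x →
      T_MAINK m x (KX m L α)) (hLVF : T_LVF) {n : ℕ} (hn : 2 ≤ n) {α p₀ : ℝ} (hα : 0 < α)
    (hα1 : α ≤ (n : ℝ) + 1 / 3) (h1 : 2 + 2 / (n : ℝ) ≤ p₀)
    (h2 : 2 + 8 / (3 * (2 * (n : ℝ) + 1 - α) + max 0 ((n : ℝ) - α)) ≤ p₀) :
    ∀ q, p₀ < q → SECX n (1 / 8) α q := by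
  intro q hq
  have hn2 : (2 : ℝ) ≤ n := by exact_mod_cast hn
  have hn0 : (0 : ℝ) < n := by linarith
  set D : ℝ := 3 * (2 * (n : ℝ) + 1 - α) + max 0 ((n : ℝ) - α) with hD
  have hD8 : 8 ≤ D := by
    have := le_max_left 0 ((n : ℝ) - α)
    rw [hD]
    linarith
  have hD0 : 0 < D := by linarith
  have hx1 : 8 / D ≤ 1 := by rw [div_le_one hD0]; exact hD8
  have hx2 : 2 / (n : ℝ) ≤ 1 := by rw [div_le_one hn0]; exact hn2
  set x₀ : ℝ := max (8 / D) (2 / (n : ℝ)) with hx₀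
  have hx01 : x₀ ≤ 1 := max_le hx1 hx2
  have hx0q : x₀ < q - 2 := max_lt (by linarith) (by linarith)
  have hx00 : 0 < x₀ := lt_of_lt_of_le (by positivity) (le_max_left _ _)
  set x : ℝ := min ((x₀ + (q - 2)) / 2) 2 with hx
  have hxx : x₀ < x := lt_min (by linarith) (by linarith)
  have hx4 : x ≤ 2 := min_le_right _ _
  have hxq : x < q - 2 := lt_of_le_of_lt (min_le_left _ _) (by linarith)
  have h8 : 8 ≤ x * D := by
    have : 8 / D ≤ x := (le_max_left _ _).trans hxx.le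
    rwa [div_le_iff₀ hD0] at this
  have h9 : 2 < n * x := by
    have : 2 / (n : ℝ) < x := (le_max_right _ _).trans_lt hxx
    rw [div_lt_iff₀ hn0] at this
    linarith
  refine hLVF n (4 * n + 20) α x q (by omega) (by omega) hα (by linarith) (by linarith)
    (hMK n (4 * n + 20) α x (by omega) le_rfl hα1 ?_ (by linarith) h9) (by linarith)
  rw [exp_eq]
  exact h8

/-- the theorem, from the layers -/
theorem pf_FD (hMK : ∀ (m L : ℕ) (α x : ℝ), 1 ≤ m → 4 * m + 20 ≤ L → α ≤ m + 1 / 3 →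
      8 ≤ x * (6 * m + 3 - 2 * α - 2 * min (α / 2) (α - (m : ℝ) / 2)) → x ≤ 4 → 2 < m * x →
      T_MAINK m x (KX m L α)) (hLVF : T_LVF) (hRSF : T_RSF) (hTRF : T_TRF) (hRWF : T_RWF)
    (hBWF : T_BWF) (hQWF : T_QWF) : T_FD := by
  intro d α p σ hd hα hα1 hp1 hp2 hσ
  obtain ⟨n, rfl⟩ : ∃ n : ℕ, d = n + 1 := ⟨d - 1, by omega⟩
  have hn : 2 ≤ n := by omega
  have hn2 : (2 : ℝ) ≤ n := by exact_mod_cast hn
  have hn0 : (0 : ℝ) < n := by linarith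
  have hc : ((n + 1 : ℕ) : ℝ) = (n : ℝ) + 1 := by push_cast; ring
  rw [hc] at hα1 hp1 hp2
  have hα2 : α ≤ (n : ℝ) + 1 / 3 := by linarith
  have hα3 : α ≤ (n : ℝ) + 1 := by linarith
  have hp1' : 2 + 2 / (n : ℝ) ≤ p := by
    have e0 : (n : ℝ) + 1 - 1 = n := by ring
    have : 2 + 2 / (n : ℝ) = 2 * ((n : ℝ) + 1) / (n : ℝ) := by
      field_simp
    rw [this]
    rw [e0] at hp1
    exact hp1
  have hp2' : 2 + 8 / (3 * (2 * (n : ℝ) + 1 - α) + max 0 ((n : ℝ) - α)) ≤ p := by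
    have e1 : (n : ℝ) + 1 - 1 - α = (n : ℝ) - α := by ring
    have e2 : 2 * ((n : ℝ) + 1) - 1 - α = 2 * (n : ℝ) + 1 - α := by ring
    rw [e1, e2] at hp2
    exact hp2
  have h2n : 0 < 2 / (n : ℝ) := by positivity
  set p₀ : ℝ := max (2 + 2 / (n : ℝ)) (2 + 8 / (3 * (2 * (n : ℝ) + 1 - α) + max 0 ((n : ℝ) - α)))
    with hp₀
  have hp₀2 : 2 < p₀ := lt_of_lt_of_le (by linarith) (le_max_left _ _)
  have hp₀p : p₀ ≤ p := max_le hp1' hp2'
  have h1 : RESX n α p₀ := hRSF n α p₀ hp₀2.le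
    (secx_all hMK hLVF hn hα hα2 (le_max_left _ _) (le_max_right _ _))
  have h2 : RESW n α p₀ := hRWF n α p₀ hn hα hα3 hp₀2 (hTRF n α p₀ hn hp₀2.le h1)
  have h3 : Q1W n α p := hQWF n α p hn (by linarith) hα hα3 (hBWF n α p₀ p hn hp₀2 hp₀p h2)
  obtain ⟨C, hC⟩ := h3 σ hσ
  refine ⟨C, fun lam v u₀ u₁ hl hv1 hv2 hv3 hu => ?_⟩
  have h4 := hC lam v u₀ u₁ hl ⟨hv1, hv2, fun x ρ hρ hρ1 => ?_⟩ hu
  · have e3 : (((n + 1 : ℕ) : ℝ) - 1) * (1 / 2 - 1 / p) - σ = (n : ℝ) / 2 - n / p - σ := by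
      push_cast; ring
    have e4 : (((n + 1 : ℕ) : ℝ) - 1) * (1 / 2 - 1 / p) - 1 - σ =
        (n : ℝ) / 2 - n / p - 1 - σ := by
      push_cast; ring
    rw [e3, e4]
    exact h4
  · have h5 := hv3 x ρ hρ hρ1
    rw [hc] at h5
    exact h5

end Pool.Agent.H88.FD
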