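import Pool.Agent.H88.FD.TargetsC
import Pool.Agent.H81.GT.QA

/-!
FD (MP_ee74d2_an), module HWF: one dyadic block of the solution operators, with weights.
-/

set_option autoImplicit false

namespace Pool.Agent.H88.FD

open MeasureTheory Set FourierTransform
open scoped ENNReal NNReal SchwartzMap
open Pool.Agent.H83.LS Pool.Agent.H14.LS Pool.Agent.H83.LS.HG

theorem e_smooth (c : ℝ) : ContDiff ℝ (⊤ : ℕ∞) (fun s : ℝ => e (c * s)) := by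
  unfold e
  have h : ContDiff ℝ (⊤ : ℕ∞) (fun s : ℝ => 2 * Real.pi * (c * s)) := by fun_prop
  exact ((Complex.ofRealCLM.contDiff.comp h).mul contDiff_const).cexp

/-- the profile of `mT lam t` -/
noncomputable def kt (lam t s : ℝ) : ℂ := e (t * lam * s) * ((chi s : ℝ) : ℂ)

theorem kt_Sm (lam t : ℝ) : Sm (kt lam t) := by
  refine ⟨(e_smooth (t * lam)).mul (Complex.ofRealCLM.contDiff.comp chi_smooth), fun s hs => ?_⟩
  have h : chi s ≠ 0 := by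
    intro h0
    apply hs
    unfold kt
    rw [h0]
    simp
  have := chi_supp h
  constructor <;> linarith [this.1, this.2]

theorem kt_conj_Sm (lam t : ℝ) : Sm (fun s => (starRingEnd ℂ) (kt lam t s)) := by
  refine ⟨Complex.conjCLE.contDiff.comp (kt_Sm lam t).1, fun s hs => (kt_Sm lam t).2 s ?_⟩
  intro h0
  apply hs
  simp only [h0, map_zero]

theorem mT_kt {d : ℕ} {lam : ℝ} (hl : 0 < lam) (t : ℝ) :
    (mT lam t : EE d → ℂ) = fun ξ => kt lam t (‖ξ‖ / lam) := by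
  funext ξ
  unfold mT kt
  congr 2
  field_simp

/-- Young's inequality on the solution side -/
theorem young_side (hYG : T_YG) {n : ℕ} {p r lam : ℝ} (hp1 : 1 ≤ p) (hl0 : 0 < lam)
    {κ φ κt : ℝ → ℂ} (hφ : Sm φ) (hκt : Sm κt) {u V g : 𝓢(EE (n + 1), ℂ)}
    (hV : ∀ ξ, 𝓕 (V : EE (n + 1) → ℂ) ξ = κ (‖ξ‖ / lam) * 𝓕 (u : EE (n + 1) → ℂ) ξ)
    (hg : ∀ ξ, 𝓕 (g : EE (n + 1) → ℂ) ξ = bs r ξ * 𝓕 (u : EE (n + 1) → ℂ) ξ)
    (hκ : ∀ ξ : EE (n + 1), κ (‖ξ‖ / lam) = ((lam ^ (-r) : ℝ) : ℂ) * (φ (‖ξ‖ / lam) * bs r ξ)) :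
    ∫⁻ x, ‖MM (fun ξ => κt (‖ξ‖ / lam)) V x‖ₑ ^ p ≤ ENNReal.ofReal (lam ^ (-(p * r))) *
      ((∫⁻ x : EE (n + 1), ‖MK (fun ξ => φ (‖ξ‖ / lam)) x‖ₑ) ^ p *
        ∫⁻ x, ‖MM (fun ξ => κt (‖ξ‖ / lam)) g x‖ₑ ^ p) := by
  obtain ⟨F, hF1, hF2⟩ := schwartz_mult (radial_temp (d := n + 1) hκt hl0) g
  have hY := MM_young hYG (radial_int (d := n + 1) hφ hl0) F.integrable F.continuous.measurable hp1
  have h1 : ∀ x, MM (fun ξ => κt (‖ξ‖ / lam)) V x = ((lam ^ (-r) : ℝ) : ℂ) *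
      MM (fun ξ => φ (‖ξ‖ / lam)) F x := by
    intro x
    unfold MM
    rw [← integral_const_mul]
    congr 1; ext ξ
    rw [hV, hF1, hg, hκ]
    ring
  have h2 : ∀ x, ‖MM (fun ξ => κt (‖ξ‖ / lam)) V x‖ₑ ^ p = ENNReal.ofReal (lam ^ (-(p * r))) *
      ‖MM (fun ξ => φ (‖ξ‖ / lam)) F x‖ₑ ^ p := by
    intro x
    rw [h1, enorm_mul, ENNReal.mul_rpow_of_nonneg _ _ (by linarith)]
    congr 1
    rw [← ofReal_norm, Complex.norm_real, Real.norm_of_nonneg (by positivity),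
      ENNReal.ofReal_rpow_of_nonneg (by positivity) (by linarith), ← Real.rpow_mul hl0.le]
    congr 2; ring
  simp_rw [h2]
  rw [lintegral_const_mul' _ _ ENNReal.ofReal_ne_top]
  refine mul_le_mul' le_rfl (hY.trans (le_of_eq ?_))
  congr 1
  refine lintegral_congr fun x => ?_
  rw [hF2]

/-- the analytic core -/
theorem corew (hR : T_RADL) (hYG : T_YG) {n : ℕ} {α p r η : ℝ} (hS : BLAW n α p)
    (hn : 2 ≤ n) (hp1 : 1 ≤ p) (hη : 0 < η) {κ : ℝ → ℂ} (hκ : Sm κ) :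
    ∃ C : ℝ≥0, ∀ (lam : ℝ) (ω : EE (n + 1) → ℝ) (u V : 𝓢(EE (n + 1), ℂ)), 1 ≤ lam →
      Wei α lam ω →
      (∀ ξ, 𝓕 (V : EE (n + 1) → ℂ) ξ = κ (‖ξ‖ / lam) * 𝓕 (u : EE (n + 1) → ℂ) ξ) →
      (∫⁻ t in Icc (1 : ℝ) 2, ∫⁻ x, ‖MM (mT lam t) V x‖ₑ ^ p ≤
        C * ENNReal.ofReal (lam ^ ((n : ℝ) * (p / 2 - 1) - 1 - p * r + η)) *
          ∫⁻ x, ‖besS r u x‖ₑ ^ p * ENNReal.ofReal (ω x) ^ (1 - p)) ∧
      (∫⁻ t in Icc (1 : ℝ) 2, ∫⁻ x, ‖MM (mT lam t) (fun y => (starRingEnd ℂ) (V y)) x‖ₑ ^ p ≤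
        C * ENNReal.ofReal (lam ^ ((n : ℝ) * (p / 2 - 1) - 1 - p * r + η)) *
          ∫⁻ x, ‖besS r u x‖ₑ ^ p * ENNReal.ofReal (ω x) ^ (1 - p)) := by
  obtain ⟨C₁, hC₁⟩ := hS η hη
  obtain ⟨M, C₂, hC₂⟩ := hR (n + 1) (by omega)
  obtain ⟨B, hB0, hB⟩ := fam_CB hκ r M
  refine ⟨C₁ * (Real.toNNReal (C₂ * B)) ^ p, ?_⟩
  intro lam ω u V hl hω hV
  have hl0 : 0 < lam := by linarith
  have ha : 1 / lam ∈ Icc (0 : ℝ) 1 := by
    refine ⟨by positivity, ?_⟩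
    rw [div_le_one hl0]; exact hl
  have hK := (hC₂ (fam κ r (1 / lam)) B lam 0 (hB _ ha) hl0 le_rfl).1
  have hrk : rk (d := n + 1) (fam κ r (1 / lam)) lam 0 =
      MK (fun ξ => fam κ r (1 / lam) (‖ξ‖ / lam)) := by
    funext x
    unfold rk
    congr 1
    funext ξ
    rw [zero_mul, e_zero, one_mul]
  rw [hrk, mul_zero, add_zero, Real.one_rpow, mul_one] at hK
  have hfS := fam_Sm hκ r (1 / lam)
  obtain ⟨g, hg1, hg2⟩ := besS_schwartz r u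
  have hfin : ∀ (w : 𝓢(EE (n + 1), ℂ)) (W : ℝ → ℝ≥0∞), (∀ x, ‖w x‖ₑ = ‖g x‖ₑ) →
      (∀ t, W t ≤ ENNReal.ofReal (lam ^ (-(p * r))) *
        ((Real.toNNReal (C₂ * B) : ℝ≥0∞) ^ p * ∫⁻ x, ‖MM (mT lam t) w x‖ₑ ^ p)) →
      ∫⁻ t in Icc (1 : ℝ) 2, W t ≤ ((C₁ * (Real.toNNReal (C₂ * B)) ^ p : ℝ≥0) : ℝ≥0∞) *
        ENNReal.ofReal (lam ^ ((n : ℝ) * (p / 2 - 1) - 1 - p * r + η)) *
          ∫⁻ x, ‖besS r u x‖ₑ ^ p * ENNReal.ofReal (ω x) ^ (1 - p) := by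
    intro w W hw hW
    have h1 : ∫⁻ t in Icc (1 : ℝ) 2, W t ≤ ENNReal.ofReal (lam ^ (-(p * r))) *
        ((Real.toNNReal (C₂ * B) : ℝ≥0∞) ^ p *
          ∫⁻ t in Icc (1 : ℝ) 2, ∫⁻ x, ‖MM (mT lam t) w x‖ₑ ^ p) := by
      refine (lintegral_mono fun t => hW t).trans (le_of_eq ?_)
      rw [lintegral_const_mul' _ _ ENNReal.ofReal_ne_top, lintegral_const_mul']
      exact ENNReal.rpow_ne_top_of_nonneg (by linarith) ENNReal.coe_ne_top
    refine h1.trans ?_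
    have h2 := hC₁ lam ω w hl hω
    refine (mul_le_mul' le_rfl (mul_le_mul' le_rfl h2)).trans (le_of_eq ?_)
    have h3 : ∫⁻ x, ‖w x‖ₑ ^ p * ENNReal.ofReal (ω x) ^ (1 - p) =
        ∫⁻ x, ‖besS r u x‖ₑ ^ p * ENNReal.ofReal (ω x) ^ (1 - p) := by
      refine lintegral_congr fun x => ?_
      rw [hw, hg2]
    have h4 : lam ^ ((n : ℝ) * (p / 2 - 1) - 1 - p * r + η) =
        lam ^ ((n : ℝ) * (p / 2 - 1) - 1 + η) * lam ^ (-(p * r)) := by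
      rw [← Real.rpow_add hl0]; congr 1; ring
    rw [h3, h4, ENNReal.ofReal_mul (by positivity), ENNReal.coe_mul,
      ENNReal.coe_rpow_of_nonneg _ (by linarith)]
    ring
  have hKp : (∫⁻ x : EE (n + 1), ‖MK (fun ξ => fam κ r (1 / lam) (‖ξ‖ / lam)) x‖ₑ) ^ p ≤
      (Real.toNNReal (C₂ * B) : ℝ≥0∞) ^ p := ENNReal.rpow_le_rpow hK (by linarith)
  constructor
  · refine hfin g _ (fun _ => rfl) fun t => ?_
    rw [mT_kt hl0 t]
    refine (young_side hYG hp1 hl0 hfS (kt_Sm lam t) hV hg1 (fam_bs κ r hl0)).trans ?_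
    gcongr
  · refine hfin (cjS g) _ (fun x => ?_) fun t => ?_
    · rw [cjS_apply, ← ofReal_norm, RCLike.norm_conj, ofReal_norm]
    have hcm : (fun ξ : EE (n + 1) => (starRingEnd ℂ) (mT lam t ξ)) =
        fun ξ => (fun s => (starRingEnd ℂ) (kt lam t s)) (‖ξ‖ / lam) := by
      rw [mT_kt hl0 t]
    have hnm : ∀ (f : EE (n + 1) → ℂ) (x : EE (n + 1)),
        ‖MM (mT lam t) (fun y => (starRingEnd ℂ) (f y)) x‖ₑ =
        ‖MM (fun ξ => (fun s => (starRingEnd ℂ) (kt lam t s)) (‖ξ‖ / lam)) f x‖ₑ := by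
      intro f x
      rw [← hcm, ← conj_MM (mT_even lam t), ← ofReal_norm, ← ofReal_norm, RCLike.norm_conj]
    have hnm2 : ∀ x, ‖MM (mT lam t) (cjS g) x‖ₑ =
        ‖MM (fun ξ => (fun s => (starRingEnd ℂ) (kt lam t s)) (‖ξ‖ / lam)) g x‖ₑ :=
      fun x => hnm g x
    simp only [hnm2]
    simp only [hnm]
    refine (young_side hYG hp1 hl0 hfS (kt_conj_Sm lam t) hV hg1 (fam_bs κ r hl0)).trans ?_
    gcongr

set_option maxHeartbeats 1600000 in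
/-- one dyadic block of the solution operators -/
theorem pf_HWF (hR : T_RADL) (hYG : T_YG) : T_HWF := by
  intro n α p r η hn hp1 hη hS
  show ∃ C : ℝ≥0, ∀ (lam : ℝ) (ω : EE (n + 1) → ℝ) (u : 𝓢(EE (n + 1), ℂ)), 1 ≤ lam →
    Wei α lam ω →
    (∫⁻ t in Icc (1 : ℝ) 2, ∫⁻ x, ‖MM (fun ξ => ((Real.cos (2 * Real.pi * t * ‖ξ‖) *
        chi (‖ξ‖ / lam) : ℝ) : ℂ)) u x‖ₑ ^ p ≤
      C * ENNReal.ofReal (lam ^ ((n : ℝ) * (p / 2 - 1) - 1 - p * r + η)) *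
        ∫⁻ x, ‖besS r u x‖ₑ ^ p * ENNReal.ofReal (ω x) ^ (1 - p)) ∧
    (∫⁻ t in Icc (1 : ℝ) 2, ∫⁻ x, ‖MM (fun ξ => ((Real.sin (2 * Real.pi * t * ‖ξ‖) /
        (2 * Real.pi * ‖ξ‖) * chi (‖ξ‖ / lam) : ℝ) : ℂ)) u x‖ₑ ^ p ≤
      C * ENNReal.ofReal (lam ^ ((n : ℝ) * (p / 2 - 1) - 1 - p * (r + 1) + η)) *
        ∫⁻ x, ‖besS r u x‖ₑ ^ p * ENNReal.ofReal (ω x) ^ (1 - p))
  have hp0 : 0 ≤ p := by linarith
  obtain ⟨C₀, hC₀⟩ := corew (r := r) hR hYG hS hn hp1 hη kap0_Sm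
  obtain ⟨C₁, hC₁⟩ := corew (r := r) hR hYG hS hn hp1 hη kap1_Sm
  refine ⟨2 * (C₀ + C₁), ?_⟩
  intro lam ω u hl hω
  have hl0 : 0 < lam := by linarith
  have hcm : ∀ t : ℝ, Measurable fun ξ : EE (n + 1) => (starRingEnd ℂ) (mT lam t ξ) := by
    intro t
    exact Complex.continuous_conj.measurable.comp
      ((mT_meas lam).comp (measurable_const.prodMk measurable_id))
  have hmm : ∀ t : ℝ, Measurable fun ξ : EE (n + 1) => mT lam t ξ := fun t =>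
    (mT_meas lam).comp (measurable_const.prodMk measurable_id)
  have hcn : ∀ (t : ℝ) (ξ : EE (n + 1)), ‖(starRingEnd ℂ) (mT lam t ξ)‖ ≤ 1 := by
    intro t ξ; rw [RCLike.norm_conj]; exact mT_norm lam t ξ
  constructor
  · obtain ⟨v, hv1, hv2⟩ := schwartz_mult (radial_temp (d := n + 1) kap0_Sm hl0) u
    obtain ⟨hA, hB⟩ := hC₀ lam ω u v hl hω hv1
    refine le_trans (split_bound lam p hp0 v _ (1 / 2) (by simp) 1 (by simp) ?_) ?_
    · intro t x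
      rw [one_mul]
      unfold MM
      rw [← integral_add (sym_int (hmm t) (mT_norm lam t) v x) (sym_int (hcm t) (hcn t) v x),
        ← integral_const_mul]
      congr 1; ext ξ
      rw [hv1]
      unfold mT kap0
      rw [map_mul, Complex.conj_ofReal, conj_e, e_eq (t * ‖ξ‖), e_eq (-(t * ‖ξ‖))]
      have h1 : 2 * Real.pi * -(t * ‖ξ‖) = -(2 * Real.pi * t * ‖ξ‖) := by ring
      have h2 : 2 * Real.pi * (t * ‖ξ‖) = 2 * Real.pi * t * ‖ξ‖ := by ring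
      rw [h1, h2, Real.cos_neg, Real.sin_neg]
      have h3 : ((chi (‖ξ‖ / lam) : ℝ) : ℂ) * ((chis (‖ξ‖ / lam) : ℝ) : ℂ) =
          ((chi (‖ξ‖ / lam) : ℝ) : ℂ) := by exact_mod_cast congrArg Complex.ofReal (chi_chis _)
      push_cast
      linear_combination (-(e (inner ℝ x ξ)) * Complex.cos (2 * Real.pi * t * ‖ξ‖) *
        𝓕 (u : EE (n + 1) → ℂ) ξ) * h3
    · refine le_trans (add_le_add hA hB) ?_
      rw [← two_mul, ← mul_assoc, ← mul_assoc]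
      gcongr
      push_cast
      exact mul_le_mul_right le_self_add _
  · obtain ⟨v, hv1, hv2⟩ := schwartz_mult (radial_temp (d := n + 1) kap1_Sm hl0) u
    obtain ⟨hA, hB⟩ := hC₁ lam ω u v hl hω hv1
    set z : ℝ → EE (n + 1) → ℂ := fun t x => (lam : ℂ) *
      MM (fun ξ => ((Real.sin (2 * Real.pi * t * ‖ξ‖) / (2 * Real.pi * ‖ξ‖) *
        chi (‖ξ‖ / lam) : ℝ) : ℂ)) u x with hz
    have hzb := split_bound lam p hp0 v z (-(1 / 2 * Complex.I)) (by simp) (-1) (by simp) ?_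
    · have h1 : ∀ t x, ‖MM (fun ξ => ((Real.sin (2 * Real.pi * t * ‖ξ‖) /
          (2 * Real.pi * ‖ξ‖) * chi (‖ξ‖ / lam) : ℝ) : ℂ)) u x‖ₑ ^ p =
          ENNReal.ofReal (lam ^ (-p)) * ‖z t x‖ₑ ^ p := by
        intro t x
        rw [hz]
        simp only
        rw [enorm_mul, ENNReal.mul_rpow_of_nonneg _ _ hp0, ← mul_assoc]
        have h2 : ‖(lam : ℂ)‖ₑ = ENNReal.ofReal lam := by
          rw [← ofReal_norm, Complex.norm_real, Real.norm_of_nonneg hl0.le]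
        rw [h2, ENNReal.ofReal_rpow_of_pos hl0, ← ENNReal.ofReal_mul (by positivity),
          ← Real.rpow_add hl0]
        simp
      simp_rw [h1]
      simp_rw [lintegral_const_mul' _ _ (ENNReal.ofReal_ne_top (r := lam ^ (-p)))]
      refine le_trans (mul_le_mul_right (le_trans hzb (add_le_add hA hB)) _) ?_
      rw [← two_mul]
      have h3 : lam ^ ((n : ℝ) * (p / 2 - 1) - 1 - p * (r + 1) + η) =
          lam ^ (-p) * lam ^ ((n : ℝ) * (p / 2 - 1) - 1 - p * r + η) := by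
        rw [← Real.rpow_add hl0]; congr 1; ring
      rw [h3, ENNReal.ofReal_mul (by positivity)]
      calc ENNReal.ofReal (lam ^ (-p)) * (2 * (C₁ *
            ENNReal.ofReal (lam ^ ((n : ℝ) * (p / 2 - 1) - 1 - p * r + η)) *
            ∫⁻ x, ‖besS r u x‖ₑ ^ p * ENNReal.ofReal (ω x) ^ (1 - p))) = ((2 * C₁ : ℝ≥0) : ℝ≥0∞) *
            (ENNReal.ofReal (lam ^ (-p)) *
            ENNReal.ofReal (lam ^ ((n : ℝ) * (p / 2 - 1) - 1 - p * r + η))) *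
            ∫⁻ x, ‖besS r u x‖ₑ ^ p * ENNReal.ofReal (ω x) ^ (1 - p) := by push_cast; ring
        _ ≤ _ := by
          gcongr
          exact le_add_self
    · intro t x
      rw [hz]
      unfold MM
      beta_reduce
      rw [← integral_const_mul, ← integral_const_mul,
        ← integral_add (sym_int (hmm t) (mT_norm lam t) v x)
          ((sym_int (hcm t) (hcn t) v x).const_mul (-1)),
        ← integral_const_mul]
      congr 1; ext ξ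
      rw [hv1]
      unfold mT kap1
      rw [map_mul, Complex.conj_ofReal, conj_e, e_eq (t * ‖ξ‖), e_eq (-(t * ‖ξ‖))]
      have h1 : 2 * Real.pi * -(t * ‖ξ‖) = -(2 * Real.pi * t * ‖ξ‖) := by ring
      have h2 : 2 * Real.pi * (t * ‖ξ‖) = 2 * Real.pi * t * ‖ξ‖ := by ring
      rw [h1, h2, Real.cos_neg, Real.sin_neg]
      have h3 : chi (‖ξ‖ / lam) * (chis (‖ξ‖ / lam) / (2 * Real.pi * (‖ξ‖ / lam))) =
          lam * (chi (‖ξ‖ / lam) / (2 * Real.pi * ‖ξ‖)) := by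
        rw [← mul_div_assoc, chi_chis]
        rcases eq_or_ne ‖ξ‖ 0 with h0 | h0
        · simp [h0]
        · field_simp
      have h4 : ((chi (‖ξ‖ / lam) : ℝ) : ℂ) *
          ((chis (‖ξ‖ / lam) / (2 * Real.pi * (‖ξ‖ / lam)) : ℝ) : ℂ) =
          (lam : ℂ) * ((chi (‖ξ‖ / lam) / (2 * Real.pi * ‖ξ‖) : ℝ) : ℂ) := by
        exact_mod_cast congrArg Complex.ofReal h3
      have h5 : ((Real.sin (2 * Real.pi * t * ‖ξ‖) / (2 * Real.pi * ‖ξ‖) *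
          chi (‖ξ‖ / lam) : ℝ) : ℂ) = ((Real.sin (2 * Real.pi * t * ‖ξ‖) : ℝ) : ℂ) *
          ((chi (‖ξ‖ / lam) / (2 * Real.pi * ‖ξ‖) : ℝ) : ℂ) := by
        rw [← Complex.ofReal_mul]; congr 1; ring
      rw [h5]
      generalize ((chi (‖ξ‖ / lam) / (2 * Real.pi * ‖ξ‖) : ℝ) : ℂ) = X at h4 ⊢
      generalize ((chis (‖ξ‖ / lam) / (2 * Real.pi * (‖ξ‖ / lam)) : ℝ) : ℂ) = Y at h4 ⊢
      generalize ((chi (‖ξ‖ / lam) : ℝ) : ℂ) = Z at h4 ⊢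
      generalize ((Real.cos (2 * Real.pi * t * ‖ξ‖) : ℝ) : ℂ) = c
      rw [Complex.ofReal_neg]
      generalize ((Real.sin (2 * Real.pi * t * ‖ξ‖) : ℝ) : ℂ) = s
      generalize e (inner ℝ x ξ) = E
      generalize 𝓕 (u : EE (n + 1) → ℂ) ξ = w
      have hI : Complex.I * Complex.I = -1 := Complex.I_mul_I
      linear_combination (-(E * s * w)) * h4 + (E * s * w * Z * Y) * hI


end Pool.Agent.H88.FD
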