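import Pool.Agent.H88.FD.WSC
import Pool.Agent.H88.FD.HWF
import Pool.Agent.H73.LS.FING

/-!
FD (MP_ee74d2_an), module QWF: from the blocks to the solutions of the wave equation.
-/

set_option autoImplicit false

namespace Pool.Agent.H88.FD

open MeasureTheory Set FourierTransform
open scoped ENNReal NNReal SchwartzMap
open Pool.Agent.H83.LS Pool.Agent.H14.LS Pool.Agent.H83.LS.HG

/-- the blocks of high frequency vanish -/
theorem block_zero {n : ℕ} {lam mu : ℝ} (hl : 1 ≤ lam) (hmu : 2 * lam < mu) (k : ℝ → ℝ)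
    {u : 𝓢(EE (n + 1), ℂ)} (hu : ∀ ξ, lam < ‖ξ‖ → 𝓕 (u : EE (n + 1) → ℂ) ξ = 0)
    (x : EE (n + 1)) : MM (fun ξ => ((k ‖ξ‖ * chi (‖ξ‖ / mu) : ℝ) : ℂ)) u x = 0 := by
  unfold MM
  have hmu0 : 0 < mu := by linarith
  have h : ∀ ξ : EE (n + 1), ((k ‖ξ‖ * chi (‖ξ‖ / mu) : ℝ) : ℂ) *
      𝓕 (u : EE (n + 1) → ℂ) ξ = 0 := by
    intro ξ
    by_cases h0 : chi (‖ξ‖ / mu) = 0
    · rw [h0]; simp
    · have h1 := (chi_supp h0).1
      rw [le_div_iff₀ hmu0] at h1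
      rw [hu ξ (by linarith), mul_zero]
  simp only [h, mul_zero, integral_zero]

theorem wN_pow {d : ℕ} {p : ℝ} (hp : 0 < p) (v : EE d → ℝ) (f : EE d → ℂ) :
    wN p v f ^ p = ∫⁻ x, ‖f x‖ₑ ^ p * ENNReal.ofReal (v x) ^ (1 - p) := by
  unfold wN
  rw [← ENNReal.rpow_mul, one_div_mul_cancel hp.ne', ENNReal.rpow_one]

theorem le_wN {d : ℕ} {p : ℝ} (hp : 1 ≤ p) {v : EE d → ℝ} (hv : ∀ x, 0 < v x ∧ v x ≤ 1)
    (f : EE d → ℂ) : ∫⁻ x, ‖f x‖ₑ ^ p ≤ wN p v f ^ p := by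
  rw [wN_pow (by linarith)]
  refine lintegral_mono fun x => ?_
  have h1 : ENNReal.ofReal (v x) ^ (p - 1) ≤ 1 := by
    refine ENNReal.rpow_le_one ?_ (by linarith)
    rw [← ENNReal.ofReal_one]
    exact ENNReal.ofReal_le_ofReal (hv x).2
  have h2 : 1 ≤ ENNReal.ofReal (v x) ^ (1 - p) := by
    rw [show 1 - p = -(p - 1) by ring, ENNReal.rpow_neg]
    exact ENNReal.one_le_inv.2 h1
  calc ‖f x‖ₑ ^ p = ‖f x‖ₑ ^ p * 1 := (mul_one _).symm
    _ ≤ _ := by gcongr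

theorem w_scale {p C t : ℝ} (hC : 0 < C) (ht : 0 < t) :
    ENNReal.ofReal (C⁻¹ * t) ^ (1 - p) =
      ENNReal.ofReal (C ^ (p - 1)) * ENNReal.ofReal t ^ (1 - p) := by
  rw [ENNReal.ofReal_rpow_of_pos (by positivity), ENNReal.ofReal_rpow_of_pos ht,
    ← ENNReal.ofReal_mul (by positivity)]
  congr 1
  rw [Real.mul_rpow (by positivity) ht.le, Real.inv_rpow hC.le, ← Real.rpow_neg hC.le]
  congr 2
  ring

theorem int_scale {d : ℕ} {p C : ℝ} (hC : 0 < C) {v : EE d → ℝ} (hv : ∀ x, 0 < v x ∧ v x ≤ 1)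
    (f : EE d → ℂ) : ∫⁻ x, ‖f x‖ₑ ^ p * ENNReal.ofReal (C⁻¹ * v x) ^ (1 - p) =
      ENNReal.ofReal (C ^ (p - 1)) * ∫⁻ x, ‖f x‖ₑ ^ p * ENNReal.ofReal (v x) ^ (1 - p) := by
  rw [← lintegral_const_mul' _ _ ENNReal.ofReal_ne_top]
  refine lintegral_congr fun x => ?_
  rw [w_scale hC (hv x).1]
  ring

set_option maxHeartbeats 1600000 in
/-- the theorem at the exponent `p` -/
theorem pf_QWF (hR : T_RADL) (hLOWF : T_LOWF) (hYG : T_YG) (hPLE : T_PLE) : T_QWF := by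
  intro n α p hn hp1 hα hα1 hS σ hσ
  have hp0 : 0 < p := lt_of_lt_of_le one_pos hp1
  have hδ : 0 < (1 - p * σ) / 2 := by
    have h1 : p * σ < 1 := by
      rw [lt_div_iff₀ hp0] at hσ
      linarith
    linarith
  obtain ⟨C₀, h₀⟩ := pf_HWF hR hYG n α p ((n : ℝ) / 2 - n / p - σ) ((1 - p * σ) / 2) hn hp1 hδ hS
  obtain ⟨C₁, h₁⟩ := pf_HWF hR hYG n α p ((n : ℝ) / 2 - n / p - 1 - σ) ((1 - p * σ) / 2)
    hn hp1 hδ hS
  obtain ⟨Cw, hCw1, hCw⟩ := pf_WSC n α hα hα1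
  have hCw0 : 0 < Cw := by linarith
  obtain ⟨C, hC⟩ := Pool.Agent.H73.LS.both hLOWF hPLE hYG (n + 1) (by omega) p ((1 - p * σ) / 2)
    ((n : ℝ) / 2 - n / p - σ) ((n : ℝ) / 2 - n / p - 1 - σ) hp1 hδ
    ((C₀ + C₁) * Real.toNNReal (Cw ^ (p - 1)))
  refine ⟨C, fun lam v u₀ u₁ hl hv hu => ?_⟩
  have e₀ : (n : ℝ) * (p / 2 - 1) - 1 - p * ((n : ℝ) / 2 - n / p - σ) + (1 - p * σ) / 2 =
      -((1 - p * σ) / 2) := by
    field_simp
    ring
  have e₁ : (n : ℝ) * (p / 2 - 1) - 1 - p * ((n : ℝ) / 2 - n / p - 1 - σ + 1) +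
      (1 - p * σ) / 2 = -((1 - p * σ) / 2) := by
    field_simp
    ring
  refine hC u₀ u₁ _ _ (le_wN hp1 hv.2.1 _) (le_wN hp1 hv.2.1 _) (fun mu hmu => ?_)
    (fun mu hmu => ?_)
  · rcases le_or_gt mu (2 * lam) with hml | hml
    · have hw := hCw lam mu v hl hmu (by linarith) hv
      have h2 := (h₀ mu _ u₀ hmu hw).1
      rw [e₀, int_scale hCw0 hv.2.1, ← wN_pow hp0] at h2
      refine h2.trans ?_
      calc (C₀ : ℝ≥0∞) * ENNReal.ofReal (mu ^ (-((1 - p * σ) / 2))) *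
            (ENNReal.ofReal (Cw ^ (p - 1)) *
              wN p v (besS ((n : ℝ) / 2 - n / p - σ) u₀) ^ p) =
          ((C₀ : ℝ≥0∞) * ENNReal.ofReal (Cw ^ (p - 1))) *
            ENNReal.ofReal (mu ^ (-((1 - p * σ) / 2))) *
              wN p v (besS ((n : ℝ) / 2 - n / p - σ) u₀) ^ p := by ring
        _ ≤ _ := by
            push_cast
            rw [ENNReal.ofReal]
            gcongr
            exact le_self_add
    · have h3 : ∀ (t : ℝ) (x : EE (n + 1)), MM (fun ξ =>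
          ((Real.cos (2 * Real.pi * t * ‖ξ‖) * chi (‖ξ‖ / mu) : ℝ) : ℂ)) u₀ x = 0 := fun t x =>
        block_zero hl hml (fun s => Real.cos (2 * Real.pi * t * s)) (fun ξ hξ => (hu ξ hξ).1) x
      simp only [h3, enorm_zero, ENNReal.zero_rpow_of_pos hp0, lintegral_zero]
      exact zero_le
  · rcases le_or_gt mu (2 * lam) with hml | hml
    · have hw := hCw lam mu v hl hmu (by linarith) hv
      have h2 := (h₁ mu _ u₁ hmu hw).2
      rw [e₁, int_scale hCw0 hv.2.1, ← wN_pow hp0] at h2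
      refine h2.trans ?_
      calc (C₁ : ℝ≥0∞) * ENNReal.ofReal (mu ^ (-((1 - p * σ) / 2))) *
            (ENNReal.ofReal (Cw ^ (p - 1)) *
              wN p v (besS ((n : ℝ) / 2 - n / p - 1 - σ) u₁) ^ p) =
          ((C₁ : ℝ≥0∞) * ENNReal.ofReal (Cw ^ (p - 1))) *
            ENNReal.ofReal (mu ^ (-((1 - p * σ) / 2))) *
              wN p v (besS ((n : ℝ) / 2 - n / p - 1 - σ) u₁) ^ p := by ring
        _ ≤ _ := by
            push_cast
            rw [ENNReal.ofReal]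
            gcongr
            exact le_add_self
    · have h3 : ∀ (t : ℝ) (x : EE (n + 1)), MM (fun ξ =>
          ((Real.sin (2 * Real.pi * t * ‖ξ‖) / (2 * Real.pi * ‖ξ‖) * chi (‖ξ‖ / mu) : ℝ) : ℂ))
            u₁ x = 0 := fun t x =>
        block_zero hl hml (fun s => Real.sin (2 * Real.pi * t * s) / (2 * Real.pi * s))
          (fun ξ hξ => (hu ξ hξ).2) x
      simp only [h3, enorm_zero, ENNReal.zero_rpow_of_pos hp0, lintegral_zero]
      exact zero_le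

end Pool.Agent.H88.FD
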