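import Pool.Agent.H88.FD.TargetsC

/-!
FD (MP_ee74d2_an), module WSC: weights at neighbouring scales.
-/

set_option autoImplicit false

namespace Pool.Agent.H88.FD

open MeasureTheory Set FourierTransform
open scoped ENNReal NNReal SchwartzMap
open Pool.Agent.H83.LS

theorem pf_WSC : T_WSC := by
  intro n α hα hα1
  set c : ℝ≥0∞ := volume (Metric.ball (0 : EE (n + 1)) 1) with hc
  have hct : c ≠ ⊤ := measure_ball_lt_top.ne
  set c' : ℝ := c.toReal with hc'
  have hcc : c = ENNReal.ofReal c' := (ENNReal.ofReal_toReal hct).symm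
  have hc'0 : 0 ≤ c' := ENNReal.toReal_nonneg
  set C : ℝ := (1 + c') * 4 ^ (n + 1) with hC
  have h4 : (1 : ℝ) ≤ 4 ^ (n + 1) := one_le_pow₀ (by norm_num)
  have hC1 : 1 ≤ C := by
    rw [hC]
    nlinarith
  have hC0 : 0 < C := by linarith
  refine ⟨C, hC1, fun lam mu v hl hmu hml hv => ⟨hv.1.const_mul _, fun x => ?_, ?_⟩⟩
  · obtain ⟨h1, h2⟩ := hv.2.1 x
    refine ⟨by positivity, ?_⟩
    rw [inv_mul_le_iff₀ hC0]
    linarith
  intro x ρ hρ hρ1
  have hl0 : 0 < lam := by linarith
  have hm0 : 0 < mu := by linarith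
  have hρ0 : 0 < ρ := lt_of_lt_of_le (inv_pos.2 hm0) hρ
  set d : ℝ := (n : ℝ) + 1 with hd
  have hdα : 0 ≤ d - α := by linarith
  -- comparison of the scales
  have e1 : lam ^ (α - d) ≤ 4 ^ (n + 1) * mu ^ (α - d) := by
    have h1 : (mu / 4) ^ (d - α) ≤ lam ^ (d - α) :=
      Real.rpow_le_rpow (by positivity) (by linarith) hdα
    have h2 : (mu / 4) ^ (d - α) = mu ^ (d - α) / 4 ^ (d - α) := Real.div_rpow hm0.le (by norm_num) _
    have h3 : (4 : ℝ) ^ (d - α) ≤ 4 ^ (n + 1) := by
      rw [← Real.rpow_natCast 4 (n + 1)]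
      apply Real.rpow_le_rpow_of_exponent_le (by norm_num)
      push_cast
      linarith
    have h4' : 0 < mu ^ (d - α) := by positivity
    have h5 : 0 < lam ^ (d - α) := by positivity
    have h6 : (0 : ℝ) < 4 ^ (d - α) := by positivity
    have h7 : lam ^ (α - d) = (lam ^ (d - α))⁻¹ := by
      rw [← Real.rpow_neg hl0.le]
      congr 1
      ring
    have h8 : mu ^ (α - d) = (mu ^ (d - α))⁻¹ := by
      rw [← Real.rpow_neg hm0.le]
      congr 1
      ring
    rw [h7, h8]
    rw [h2, div_le_iff₀ h6] at h1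
    rw [← div_eq_mul_inv, le_div_iff₀ h4', inv_mul_le_iff₀ h5]
    calc mu ^ (d - α) ≤ lam ^ (d - α) * 4 ^ (d - α) := h1
      _ ≤ lam ^ (d - α) * 4 ^ (n + 1) := by gcongr
  have e2 : ∫⁻ y in Metric.closedBall x ρ, ENNReal.ofReal (v y) ≤
      ENNReal.ofReal ((1 + c') * (lam ^ (α - d) * ρ ^ α)) := by
    rcases le_or_gt lam⁻¹ ρ with h | h
    · refine (hv.2.2 x ρ h hρ1).trans (ENNReal.ofReal_le_ofReal ?_)
      have : 0 ≤ lam ^ (α - d) * ρ ^ α := by positivity
      nlinarith
    · calc ∫⁻ y in Metric.closedBall x ρ, ENNReal.ofReal (v y)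
          ≤ ∫⁻ y in Metric.closedBall x ρ, 1 := by
            refine lintegral_mono fun y => ?_
            rw [← ENNReal.ofReal_one]
            exact ENNReal.ofReal_le_ofReal (hv.2.1 y).2
        _ = volume (Metric.closedBall x ρ) := by rw [setLIntegral_const, one_mul]
        _ = ENNReal.ofReal (ρ ^ (n + 1)) * c := by
            rw [Measure.addHaar_closedBall _ _ hρ0.le, finrank_euclideanSpace, Fintype.card_fin]
        _ = ENNReal.ofReal (ρ ^ (n + 1) * c') := by
            rw [hcc, ← ENNReal.ofReal_mul (by positivity)]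
        _ ≤ _ := by
            apply ENNReal.ofReal_le_ofReal
            have h1 : ρ ^ (n + 1) = ρ ^ (d - α) * ρ ^ α := by
              rw [← Real.rpow_natCast ρ (n + 1), ← Real.rpow_add hρ0]
              congr 1
              push_cast
              ring
            have h2 : ρ ^ (d - α) ≤ lam ^ (α - d) := by
              have h3 : ρ ^ (d - α) ≤ (lam⁻¹) ^ (d - α) :=
                Real.rpow_le_rpow hρ0.le h.le hdα
              rw [Real.inv_rpow hl0.le, ← Real.rpow_neg hl0.le] at h3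
              have h4 : -(d - α) = α - d := by ring
              rwa [h4] at h3
            have h5 : 0 ≤ ρ ^ α := by positivity
            have h6 : ρ ^ (d - α) * ρ ^ α ≤ lam ^ (α - d) * ρ ^ α := by gcongr
            have h7 : 0 ≤ lam ^ (α - d) * ρ ^ α := by positivity
            rw [h1]
            nlinarith
  have e3 : ∀ y, ENNReal.ofReal (C⁻¹ * v y) = ENNReal.ofReal C⁻¹ * ENNReal.ofReal (v y) :=
    fun y => ENNReal.ofReal_mul (by positivity)
  simp_rw [e3]
  rw [lintegral_const_mul' _ _ ENNReal.ofReal_ne_top]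
  refine (mul_le_mul' le_rfl e2).trans ?_
  rw [← ENNReal.ofReal_mul (by positivity)]
  apply ENNReal.ofReal_le_ofReal
  rw [inv_mul_le_iff₀ hC0, hC]
  have h5 : 0 ≤ ρ ^ α := by positivity
  calc (1 + c') * (lam ^ (α - d) * ρ ^ α) ≤ (1 + c') * ((4 ^ (n + 1) * mu ^ (α - d)) * ρ ^ α) := by
        gcongr
    _ = _ := by ring

end Pool.Agent.H88.FD
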